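import Pool.Agent.Run7.h333.Emb

/-!
# Vanishing of the unramified `H^3` for Artin-Schreier threefolds over finite fields

All cohomology classes are represented by homogeneous cochains which are locally constant, that is,
which only depend on the restrictions of their arguments to a finite subset of the algebraic closure.
-/

set_option autoImplicit false
set_option linter.style.haveILetI false
set_option linter.unusedSectionVars false

namespace Pool.Agent.Results.MP_e9b800_ag.ArtinSchreierThreefolds

open Run7.h333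

/-! ## The Galois module `ℚ_l/ℤ_l(2)` -/

/-- the roots of unity of order a power of `l` in a field -/
def Mu (l : ℕ) (Ω : Type) [Field Ω] : Subgroup Ωˣ where
  carrier := {u | ∃ n : ℕ, u ^ l ^ n = 1}
  one_mem' := ⟨0, one_pow _⟩
  mul_mem' := by
    rintro a b ⟨n, hn⟩ ⟨m, hm⟩
    refine ⟨n + m, ?_⟩
    rw [mul_pow, pow_add, pow_mul, hn, one_pow, mul_comm (l ^ n), pow_mul, hm, one_pow, one_mul]
  inv_mem' := by
    rintro a ⟨n, hn⟩
    exact ⟨n, by rw [inv_pow, hn, inv_one]⟩

/-- the group underlying `ℚ_l/ℤ_l(2)`: the roots of unity of order a power of `l`, written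
additively -/
def QZ2 (l : ℕ) (Ω : Type) [Field Ω] : Type := Additive (Mu l Ω)

instance (l : ℕ) (Ω : Type) [Field Ω] : AddCommGroup (QZ2 l Ω) :=
  inferInstanceAs (AddCommGroup (Additive (Mu l Ω)))

section action

variable {l : ℕ} {Ω G : Type} [Field Ω] [Group G] [MulSemiringAction G Ω]

/-- the action of a field automorphism on roots of unity -/
def galMu (s : G) : Mu l Ω →* Mu l Ω where
  toFun u := ⟨Units.map (MulSemiringAction.toRingHom G Ω s : Ω →* Ω) u, by
    obtain ⟨n, hn⟩ := u.2
    exact ⟨n, by rw [← map_pow, hn, map_one]⟩⟩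
  map_one' := Subtype.ext (map_one _)
  map_mul' a b := Subtype.ext (map_mul _ _ _)

lemma galMu_coe (s : G) (u : Mu l Ω) : (((galMu s u : Mu l Ω) : Ωˣ) : Ω) = s • ((u : Ωˣ) : Ω) := rfl

lemma galMu_mul (s t : G) (u : Mu l Ω) : galMu (s * t) u = galMu s (galMu t u) := by
  apply Subtype.ext
  apply Units.ext
  rw [galMu_coe, galMu_coe, galMu_coe, mul_smul]

/-- automorphisms commute on roots of unity -/
lemma galMu_comm [Fact l.Prime] (s t : G) (u : Mu l Ω) : galMu s (galMu t u) = galMu t (galMu s u) := by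
  obtain ⟨n, hn⟩ := u.2
  haveI : NeZero (l ^ n) := ⟨pow_ne_zero n (Fact.out : l.Prime).ne_zero⟩
  have key : ∀ s : G, ∃ c : ℤ, ∀ u : Mu l Ω, (u : Ωˣ) ^ l ^ n = 1 → galMu s u = u ^ c := by
    intro s
    obtain ⟨c, hc⟩ := rootsOfUnity.integer_power_of_ringEquiv (l ^ n) (MulSemiringAction.toRingEquiv G Ω s)
    refine ⟨c, fun u hu => ?_⟩
    have h1 := hc ⟨u, (mem_rootsOfUnity _ _).2 hu⟩
    apply Subtype.ext
    apply Units.ext
    rw [galMu_coe]
    exact h1
  obtain ⟨a, ha⟩ := key s
  obtain ⟨b, hb⟩ := key t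
  rw [hb u hn, ha u hn, map_zpow, map_zpow, ha u hn, hb u hn, ← zpow_mul, ← zpow_mul, mul_comm]

/-- The action of a group of field automorphisms on `ℚ_l/ℤ_l(2)`: the automorphism `s` acts on the
roots of unity by `s ∘ s`, that is, by the square of the cyclotomic character. -/
instance [Fact l.Prime] : DistribMulAction G (QZ2 l Ω) where
  smul s m := Additive.ofMul (galMu s (galMu s (Additive.toMul m)))
  one_smul m := by
    change Additive.ofMul (galMu 1 (galMu 1 (Additive.toMul m))) = m
    have h : ∀ u : Mu l Ω, galMu (1 : G) u = u := fun u => by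
      apply Subtype.ext
      apply Units.ext
      rw [galMu_coe, one_smul]
    rw [h, h]
    rfl
  mul_smul s t m := by
    change Additive.ofMul (galMu (s * t) (galMu (s * t) (Additive.toMul m))) =
      Additive.ofMul (galMu s (galMu s (galMu t (galMu t (Additive.toMul m)))))
    rw [galMu_mul, galMu_mul, galMu_comm t s]
  smul_zero s := by
    change Additive.ofMul (galMu s (galMu s 1)) = 0
    rw [map_one, map_one]
    rfl
  smul_add s m m' := by
    change Additive.ofMul (galMu s (galMu s (Additive.toMul m * Additive.toMul m'))) = _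
    rw [map_mul, map_mul]
    rfl

end action

/-! ## Galois cohomology by homogeneous cochains -/

section cochains

variable {Ω G M : Type} [Field Ω] [Group G] [MulSemiringAction G Ω] [AddCommGroup M]
  [DistribMulAction G M]

/-- `f` is a homogeneous locally constant `3`-cocycle of `G` with values in `M` -/
structure IsCocycle (Ω : Type) {G M : Type} [Field Ω] [Group G] [MulSemiringAction G Ω]
    [AddCommGroup M] [DistribMulAction G M] (f : G → G → G → G → M) : Prop where
  /-- it only depends on the action of the arguments on a finite set -/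
  cont : ∃ S : Set Ω, S.Finite ∧ ∀ x x' y y' z z' w w' : G, (∀ s ∈ S, x • s = x' • s) →
    (∀ s ∈ S, y • s = y' • s) → (∀ s ∈ S, z • s = z' • s) → (∀ s ∈ S, w • s = w' • s) →
    f x y z w = f x' y' z' w'
  /-- it is equivariant -/
  equiv : ∀ g x y z w : G, f (g * x) (g * y) (g * z) (g * w) = g • f x y z w
  /-- its differential vanishes -/
  closed : ∀ x y z w v : G, f y z w v - f x z w v + f x y w v - f x y z v + f x y z w = 0

/-- `f` is the differential of a homogeneous locally constant `2`-cochain of `G` -/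
def IsCoboundary (Ω : Type) {G M : Type} [Field Ω] [Group G] [MulSemiringAction G Ω]
    [AddCommGroup M] [DistribMulAction G M] (f : G → G → G → G → M) : Prop :=
  ∃ b : G → G → G → M,
    (∃ S : Set Ω, S.Finite ∧ ∀ x x' y y' z z' : G, (∀ s ∈ S, x • s = x' • s) →
      (∀ s ∈ S, y • s = y' • s) → (∀ s ∈ S, z • s = z' • s) → b x y z = b x' y' z') ∧
    (∀ g x y z : G, b (g * x) (g * y) (g * z) = g • b x y z) ∧
    ∀ x y z w : G, f x y z w = b y z w - b x z w + b x y w - b x y z

/-- the decomposition group of a valuation ring of `Ω` -/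
def decomposition (G : Type) {Ω : Type} [Field Ω] [Group G] [MulSemiringAction G Ω]
    (B : ValuationSubring Ω) : Subgroup G where
  carrier := {g | ∀ x : Ω, g • x ∈ B ↔ x ∈ B}
  one_mem' x := by rw [one_smul]
  mul_mem' {a b} ha hb x := by rw [mul_smul, ha, hb]
  inv_mem' {a} ha x := by rw [← ha, smul_inv_smul]

/-- an element of the decomposition group is in the inertia group if it acts trivially on the
residue field -/
def IsInertial (B : ValuationSubring Ω) (g : decomposition G B) : Prop :=
  ∀ x ∈ B, g • x - x ∈ B.nonunits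

/-- `f` is unramified at the valuation ring `B`: its restriction to the decomposition group is
cohomologous to a cocycle inflated from the quotient by the inertia group, that is, from the absolute
Galois group of the residue field -/
def IsUnramifiedAt (B : ValuationSubring Ω) (f : G → G → G → G → M) : Prop :=
  ∃ c : decomposition G B → decomposition G B → decomposition G B → decomposition G B → M,
    IsCocycle Ω c ∧
    (∀ x x' y y' z z' w w' : decomposition G B, IsInertial B (x⁻¹ * x') → IsInertial B (y⁻¹ * y') →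
      IsInertial B (z⁻¹ * z') → IsInertial B (w⁻¹ * w') → c x y z w = c x' y' z' w') ∧
    IsCoboundary Ω fun x y z w : decomposition G B => f x y z w - c x y z w

end cochains

/-- `f` is unramified over `K`: it is unramified at every valuation ring of the algebraic closure
lying over a discrete valuation ring of `K` -/
def IsUnramified {K M : Type} [Field K] [AddCommGroup M]
    [DistribMulAction (AlgebraicClosure K ≃ₐ[K] AlgebraicClosure K) M]
    (f : (AlgebraicClosure K ≃ₐ[K] AlgebraicClosure K) → (AlgebraicClosure K ≃ₐ[K] AlgebraicClosure K) →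
      (AlgebraicClosure K ≃ₐ[K] AlgebraicClosure K) → (AlgebraicClosure K ≃ₐ[K] AlgebraicClosure K) → M) :
    Prop :=
  ∀ B : ValuationSubring (AlgebraicClosure K),
    IsDiscreteValuationRing (B.comap (algebraMap K (AlgebraicClosure K))) → IsUnramifiedAt B f

/-! ## Artin-Schreier equations -/

/-- the polynomial `g(X + T v) - g(X)` is additive in `T`, with coefficients `a m`, and
nondegenerate -/
def IsAdditiveAlong (p : ℕ) {F : Type} [Field F] (g : MvPolynomial (Fin 3) F) (v : Fin 3 → F) : Prop :=
  ∃ (h : ℕ) (a : ℕ → MvPolynomial (Fin 3) F),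
    MvPolynomial.aeval (fun i => Polynomial.C (MvPolynomial.X i) +
        Polynomial.C (MvPolynomial.C (v i)) * Polynomial.X : Fin 3 → Polynomial (MvPolynomial (Fin 3) F)) g =
      Polynomial.C g + ∑ m ∈ Finset.range (h + 1), Polynomial.C (a m) * Polynomial.X ^ p ^ m ∧
    ∑ m ∈ Finset.range (h + 1), a m ^ p ^ (h - m) ≠ 0

/-- the polynomial `g` is a polynomial in one linear form -/
def IsUnivariate {F : Type} [Field F] (g : MvPolynomial (Fin 3) F) : Prop :=
  ∃ (u : Fin 3 → F) (φ : Polynomial F), u ≠ 0 ∧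
    g = Polynomial.aeval (∑ i, MvPolynomial.C (u i) * MvPolynomial.X i) φ

/-- the condition on the right hand side of an Artin-Schreier equation -/
def IsGood (p : ℕ) {F : Type} [Field F] (g : MvPolynomial (Fin 3) F) : Prop :=
  ∃ n : MvPolynomial (Fin 3) F, IsUnivariate (g + (n ^ p - n)) ∨
    ∃ v : Fin 3 → F, v ≠ 0 ∧ IsAdditiveAlong p (g + (n ^ p - n)) v

/-! ## Bridge to the helper files -/

section bridge

lemma isGood_iff (p : ℕ) {F : Type} [Field F] (g : MvPolynomial (Fin 3) F) (h : IsGood p g) :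
    GoodEq p g := by
  obtain ⟨n, hn⟩ := h
  refine ⟨n, ?_⟩
  rcases hn with h | ⟨v, hv, m, a, h1, h2⟩
  · exact Or.inl h
  · exact Or.inr ⟨v, m, a, hv, h1, h2⟩

variable {Ω G M : Type} [Field Ω] [Group G] [MulSemiringAction G Ω] [AddCommGroup M]
  [DistribMulAction G M]

lemma sm4_of (hfo : FinO G Ω) {f : G → G → G → G → M} (h : IsCocycle Ω f) : Sm4 Ω f := by
  obtain ⟨S, hS, hf⟩ := h.cont
  obtain ⟨T, hST, hT⟩ := hfo.exists_stb hS
  exact ⟨T, hT, fun x x' y y' z z' w w' hx hy hz hw => hf _ _ _ _ _ _ _ _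
    (fun s hs => hx s (hST hs)) (fun s hs => hy s (hST hs)) (fun s hs => hz s (hST hs))
    (fun s hs => hw s (hST hs))⟩

lemma d4_of {f : G → G → G → G → M} (h : IsCocycle Ω f) : d4 f = 0 := by
  funext x y z w v
  exact h.closed x y z w v

lemma LU_of (hfo : FinO G Ω) {B : ValuationSubring Ω} {f : G → G → G → G → M}
    (h : IsUnramifiedAt B f) : LU B f := by
  obtain ⟨c, hc, hcI, b, ⟨S, hS, hbS⟩, hbe, hb⟩ := h
  obtain ⟨T, hST, hT⟩ := (hfo.restrict (decomposition G B)).exists_stb hS
  have h4 : Sm4 Ω c := sm4_of (G := decomposition G B) (hfo.restrict (decomposition G B)) hc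
  have h5 : ∀ g x y z w : decomposition G B, c (g * x) (g * y) (g * z) (g * w) = g • c x y z w :=
    hc.equiv
  have h6 : d4 c = 0 := d4_of hc
  refine ⟨c, b, h4, h5, h6, ?_, ⟨T, hT, ?_⟩, hbe, ?_⟩
  · intro x x' y y' z z' w w' hx hy hz hw
    exact hcI _ _ _ _ _ _ _ _ hx.2 hy.2 hz.2 hw.2
  · intro x x' y y' z z' hx hy hz
    exact hbS _ _ _ _ _ _ (fun s hs => hx s (hST hs)) (fun s hs => hy s (hST hs))
      (fun s hs => hz s (hST hs))
  · intro x y z w
    have h1 := hb x y z w
    rw [sub_eq_iff_eq_add'] at h1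
    exact h1

end bridge

section cf

variable {l : ℕ} [Fact l.Prime] {Ω G : Type} [Field Ω] [Group G] [MulSemiringAction G Ω]

/-- the coefficients as roots of unity -/
def theCf : Cf G Ω (QZ2 l Ω) l where
  v m := ((Additive.toMul m : Mu l Ω) : Ωˣ)
  v_add a b := by
    change (((Additive.toMul a * Additive.toMul b : Mu l Ω) : Ωˣ) : Ω) = _
    push_cast
    rfl
  v_inj a b h := Subtype.ext (Units.ext h)
  v_sur x hx := by
    obtain ⟨n, hn⟩ := hx
    have hx0 : x ≠ 0 := by
      rintro rfl
      rw [zero_pow (pow_ne_zero n (Fact.out : l.Prime).ne_zero)] at hn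
      exact zero_ne_one hn
    exact ⟨Additive.ofMul ⟨Units.mk0 x hx0, n, Units.ext (by simpa using hn)⟩, rfl⟩
  v_tor m := by
    obtain ⟨n, hn⟩ := (Additive.toMul m : Mu l Ω).2
    exact ⟨n, by rw [← Units.val_pow_eq_pow_val, hn, Units.val_one]⟩
  v_act g m := rfl

end cf

section gal

variable {Ω : Type} [Field Ω]

lemma isGal_algEquiv {P : Type} [Field P] [Algebra P Ω] [Algebra.IsAlgebraic P Ω] :
    IsGal (Ω ≃ₐ[P] Ω) (algebraMap P Ω).fieldRange where
  fix g c hc := by
    obtain ⟨y, rfl⟩ := hc
    exact g.commutes y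
  ex φ hφ := ⟨AlgEquiv.ofRingEquiv (f := φ) fun y => hφ _ ⟨y, rfl⟩, fun _ => rfl⟩
  faithful g h hgh := AlgEquiv.ext hgh
  alg x := by
    obtain ⟨q, hq, hqx⟩ := Algebra.IsAlgebraic.isAlgebraic (R := P) x
    refine ⟨q.map (algebraMap P Ω).rangeRestrictField, ?_, ?_⟩
    · exact (Polynomial.map_ne_zero_iff (RingHom.injective _)).2 hq
    · rw [Polynomial.aeval_def, Polynomial.eval₂_map]
      exact hqx

end gal

/-! ## Examples: products of three hermitian type curves -/

section examples

open MvPolynomial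

variable {p h : ℕ} {F : Type} [Field F]

/-- a diagonal hermitian form plus linear terms -/
noncomputable def hermitian (p h : ℕ) {F : Type} [Field F] (e b : Fin 3 → F) (d : F) :
    MvPolynomial (Fin 3) F :=
  ∑ i, (MvPolynomial.C (e i) * MvPolynomial.X i ^ (p ^ h + 1) +
    MvPolynomial.C (b i) * MvPolynomial.X i) + MvPolynomial.C d

lemma hermitian_additive [Fact p.Prime] [CharP F p] (hh : 0 < h) (e b : Fin 3 → F) (d : F)
    (v : Fin 3 → F) (hv : ∑ i, e i * v i ^ (p ^ h + 1) = 0) {k : Fin 3} (hk : e k * v k ≠ 0) :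
    IsAdditiveAlong p (hermitian p h e b d) v := by
  have hp : p.Prime := Fact.out
  haveI : ExpChar F p := ExpChar.prime hp
  haveI : CharP (MvPolynomial (Fin 3) F) p := inferInstance
  haveI : ExpChar (MvPolynomial (Fin 3) F) p := ExpChar.prime hp
  haveI : ExpChar (Polynomial (MvPolynomial (Fin 3) F)) p := ExpChar.prime hp
  let a0 : MvPolynomial (Fin 3) F := ∑ i, (C (e i * v i) * X i ^ p ^ h + C (b i * v i))
  let a1 : MvPolynomial (Fin 3) F := ∑ i, C (e i * v i ^ p ^ h) * X i
  have hsum : ∀ {A : Type} [AddCommMonoid A] (f : MvPolynomial (Fin 3) F → ℕ → A)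
      (hf : ∀ m, f 0 m = 0), ∑ m ∈ Finset.range (h + 1),
        f (if m = 0 then a0 else if m = h then a1 else 0) m = f a0 0 + f a1 h := by
    intro A _ f hf
    rw [Finset.sum_range_succ, if_neg hh.ne', if_pos rfl]
    obtain ⟨h', rfl⟩ : ∃ h', h = h' + 1 := ⟨h - 1, by omega⟩
    rw [Finset.sum_range_succ', if_pos rfl]
    rw [Finset.sum_eq_zero fun m hm => ?_, zero_add]
    rw [if_neg (Nat.succ_ne_zero m), if_neg, hf]
    have := Finset.mem_range.1 hm
    omega
  refine ⟨h, fun m => if m = 0 then a0 else if m = h then a1 else 0, ?_, ?_⟩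
  · have e1 := hsum (fun a m => Polynomial.C a * Polynomial.X ^ p ^ m)
      (fun m => by rw [Polynomial.C_0, zero_mul])
    rw [e1]
    have hT : ∑ i, Polynomial.C (C (e i * v i ^ (p ^ h + 1))) * Polynomial.X ^ (p ^ h + 1) =
        (0 : Polynomial (MvPolynomial (Fin 3) F)) := by
      rw [← Finset.sum_mul, ← map_sum, ← map_sum, hv, map_zero, map_zero, zero_mul]
    rw [← add_zero (Polynomial.C (hermitian p h e b d) + _), ← hT]
    have key : ∀ i, (Polynomial.C (X i) + Polynomial.C (C (v i)) * Polynomial.X :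
        Polynomial (MvPolynomial (Fin 3) F)) ^ (p ^ h + 1) =
        (Polynomial.C (X i) ^ p ^ h + Polynomial.C (C (v i)) ^ p ^ h * Polynomial.X ^ p ^ h) *
        (Polynomial.C (X i) + Polynomial.C (C (v i)) * Polynomial.X) := by
      intro i
      rw [pow_succ, add_pow_expChar_pow, mul_pow]
    have hC : ∀ c : F, algebraMap F (Polynomial (MvPolynomial (Fin 3) F)) c =
        Polynomial.C (C c) := fun c => rfl
    simp only [hermitian, a0, a1, map_add, map_sum, map_mul, map_pow, aeval_C, aeval_X, pow_zero,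
      pow_one, key, hC, Fin.sum_univ_three]
    ring
  · have e1 := hsum (fun a m => a ^ p ^ (h - m)) (fun m => zero_pow (pow_ne_zero _ hp.ne_zero))
    rw [e1, Nat.sub_zero, Nat.sub_self, pow_zero, pow_one]
    intro h0
    have h1 := congrArg (pderiv k) h0
    have h2 : pderiv k (a0 ^ p ^ h) = 0 := by
      have h3 : ((p ^ h : ℕ) : MvPolynomial (Fin 3) F) = 0 := by
        rw [Nat.cast_pow, CharP.cast_eq_zero, zero_pow hh.ne']
      rw [Derivation.leibniz_pow, ← Nat.cast_smul_eq_nsmul (MvPolynomial (Fin 3) F), h3, zero_smul]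
    have h3 : pderiv k a1 = C (e k * v k ^ p ^ h) := by
      change pderiv k (∑ i, C (e i * v i ^ p ^ h) * X i) = _
      rw [map_sum, Finset.sum_eq_single k]
      · rw [pderiv_C_mul, pderiv_X_self, mul_one]
      · intro i _ hi
        rw [pderiv_C_mul, pderiv_X_of_ne hi, mul_zero]
      · intro hn
        exact absurd (Finset.mem_univ _) hn
    rw [map_add, h2, zero_add, h3, map_zero, C_eq_zero] at h1
    rcases mul_eq_zero.1 h1 with h4 | h4
    · exact hk (by rw [h4, zero_mul])
    · exact hk (by rw [pow_eq_zero_iff (pow_ne_zero _ hp.ne_zero)] at h4; rw [h4, mul_zero])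

/-- a combination of three copies of the equation `w ^ p - w = e x ^ (q + 1) + b x + d`, `q = p ^ h`,
in separate variables, is good if `e` lies in the field with `q` elements and every such element is a
norm `v ^ (q + 1)` -/
theorem good_product [Fact p.Prime] [CharP F p] (hh : 0 < h)
    (hN : ∀ a : F, a ^ p ^ h = a → ∃ v : F, v ^ (p ^ h + 1) = a) (e b d : Fin 3 → F)
    (he : ∀ j, e j ≠ 0) (he' : ∀ j, e j ^ p ^ h = e j) (c : Fin 3 → ZMod p) (hc : c ≠ 0) :
    IsGood p (∑ j, (c j).val • (C (e j) * X j ^ (p ^ h + 1) + C (b j) * X j + C (d j))) := by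
  have hp : p.Prime := Fact.out
  haveI : ExpChar F p := ExpChar.prime hp
  let c' : Fin 3 → F := fun j => ((c j).val : F)
  have hc' : ∀ j, c j ≠ 0 → c' j ≠ 0 := by
    intro j hj h0
    rw [CharP.cast_eq_zero_iff F p] at h0
    have h1 := Nat.le_of_dvd (Nat.pos_of_ne_zero fun h => hj ((ZMod.val_eq_zero _).1 h)) h0
    exact absurd (ZMod.val_lt (c j)) (not_lt.2 h1)
  have hcq : ∀ j, c' j ^ p ^ h = c' j := by
    intro j
    have h1 := map_natCast (iterateFrobenius F p h) (c j).val
    rwa [iterateFrobenius_def] at h1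
  have hg : ∑ j, (c j).val • (C (e j) * X j ^ (p ^ h + 1) + C (b j) * X j + C (d j)) =
      hermitian p h (fun j => c' j * e j) (fun j => c' j * b j) (∑ j, c' j * d j) := by
    simp only [hermitian, c', map_sum, map_mul, map_natCast, ← Finset.sum_add_distrib, nsmul_eq_mul]
    refine Finset.sum_congr rfl fun j _ => ?_
    ring
  rw [hg]
  refine ⟨0, ?_⟩
  rw [zero_pow hp.ne_zero, sub_zero, add_zero]
  obtain ⟨i, hi⟩ := Function.ne_iff.1 hc
  by_cases hex : ∃ j, j ≠ i ∧ c j ≠ 0
  · obtain ⟨j, hji, hj⟩ := hex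
    right
    have hi' : c' i * e i ≠ 0 := mul_ne_zero (hc' i hi) (he i)
    obtain ⟨v, hv⟩ := hN (-(c' j * e j) / (c' i * e i)) (by
      rw [div_pow, mul_pow, hcq, he', neg_pow, mul_pow, hcq, he', neg_one_pow_expChar_pow]
      ring)
    have hv' : c' i * e i * v ^ (p ^ h + 1) + c' j * e j = 0 := by
      rw [hv, mul_div_cancel₀ _ hi', neg_add_cancel]
    let u : Fin 3 → F := fun n => if n = i then v else if n = j then 1 else 0
    have hui : u i = v := if_pos rfl
    have huj : u j = 1 := by
      change (if j = i then v else if j = j then (1 : F) else 0) = 1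
      rw [if_neg hji, if_pos rfl]
    refine ⟨u, ?_, hermitian_additive hh _ _ _ u ?_ (k := j) ?_⟩
    · intro h0
      have h1 := congrFun h0 j
      rw [huj] at h1
      exact one_ne_zero h1
    · rw [Fintype.sum_eq_add i j hji.symm, hui, huj, one_pow, mul_one, hv']
      rintro n ⟨h1, h2⟩
      have h3 : u n = 0 := by
        change (if n = i then v else if n = j then (1 : F) else 0) = 0
        rw [if_neg h1, if_neg h2]
      rw [h3, zero_pow (Nat.succ_ne_zero _), mul_zero]
    · change c' j * e j * u j ≠ 0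
      rw [huj, mul_one]
      exact mul_ne_zero (hc' j hj) (he j)
  · left
    push Not at hex
    have h0 : ∀ j, j ≠ i → c' j = 0 := by
      intro j hj
      change ((c j).val : F) = 0
      rw [hex j hj, ZMod.val_zero, Nat.cast_zero]
    refine ⟨Pi.single i 1, Polynomial.C (c' i * e i) * Polynomial.X ^ (p ^ h + 1) +
      Polynomial.C (c' i * b i) * Polynomial.X + Polynomial.C (∑ j, c' j * d j), ?_, ?_⟩
    · intro h1
      have h2 := congrFun h1 i
      rw [Pi.single_eq_same] at h2
      exact one_ne_zero h2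
    · have h1 : ∑ j, (C ((Pi.single i 1 : Fin 3 → F) j) * X j : MvPolynomial (Fin 3) F) = X i := by
        rw [Finset.sum_eq_single i]
        · rw [Pi.single_eq_same, map_one, one_mul]
        · intro j _ hj
          rw [Pi.single_eq_of_ne hj, map_zero, zero_mul]
        · intro hn
          exact absurd (Finset.mem_univ _) hn
      rw [h1]
      unfold hermitian
      rw [Finset.sum_eq_single i]
      · simp only [map_add, map_mul, map_pow, Polynomial.aeval_C, Polynomial.aeval_X,
          algebraMap_eq]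
      · intro j _ hj
        beta_reduce
        rw [h0 j hj, zero_mul, zero_mul, map_zero, zero_mul, zero_mul, add_zero]
      · intro hn
        exact absurd (Finset.mem_univ _) hn

end examples

/-! ## The result -/

theorem aux {p l : ℕ} [Fact p.Prime] [Fact l.Prime] (hlp : l ≠ p)
    {F K L : Type} [Field F] [Finite F] [Field K] [Field L] [CharP L p] [Algebra F L] [Algebra K L]
    [FiniteDimensional K L] (hdeg : (Module.finrank K L).Coprime l)
    {x : Fin 3 → L} (hx : AlgebraicIndependent F x)
    {J : Type} [Fintype J] [Nonempty J] {w : J → L} {g : J → MvPolynomial (Fin 3) F}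
    (hw : ∀ j, w j ^ p - w j = MvPolynomial.aeval x (g j))
    (hL : IntermediateField.adjoin F (Set.range x ∪ Set.range w) = ⊤)
    (hg : ∀ c : J → ZMod p, c ≠ 0 → IsGood p (∑ j, (c j).val • g j))
    (f : (AlgebraicClosure K ≃ₐ[K] AlgebraicClosure K) → (AlgebraicClosure K ≃ₐ[K] AlgebraicClosure K) →
      (AlgebraicClosure K ≃ₐ[K] AlgebraicClosure K) → (AlgebraicClosure K ≃ₐ[K] AlgebraicClosure K) →
      QZ2 l (AlgebraicClosure K))
    (hf : IsCocycle (AlgebraicClosure K) f) (hun : IsUnramified f) :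
    IsCoboundary (AlgebraicClosure K) f := by
  classical
  have hp : p.Prime := Fact.out
  have hl : l.Prime := Fact.out
  -- the embedding
  let φ : L →ₐ[K] AlgebraicClosure K := IsAlgClosed.lift
  let Ω := AlgebraicClosure K
  haveI : CharP Ω p := (RingHom.charP_iff (φ : L →+* Ω) φ.injective p).1 inferInstance
  letI : Algebra F Ω := ((φ : L →+* Ω).comp (algebraMap F L)).toAlgebra
  have hφF : ∀ c : F, φ (algebraMap F L c) = algebraMap F Ω c := fun _ => rfl
  let φF : L →ₐ[F] Ω := { (φ : L →+* Ω) with commutes' := hφF }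
  let x' : Fin 3 → Ω := fun i => φ (x i)
  let w' : J → Ω := fun j => φ (w j)
  have hx' : AlgebraicIndependent F x' := hx.map' (f := φF) φ.injective
  have hw' : ∀ j, w' j ^ p - w' j = MvPolynomial.aeval x' (g j) := by
    intro j
    have h1 : MvPolynomial.aeval x' (g j) = φF (MvPolynomial.aeval x (g j)) :=
      (MvPolynomial.comp_aeval_apply x φF (g j)).symm
    rw [h1, ← hw j, map_sub, map_pow]
    rfl
  have hl0 : (l : Ω) ≠ 0 := by
    rw [Ne, CharP.cast_eq_zero_iff Ω p]
    intro h
    exact hlp ((Nat.prime_dvd_prime_iff_eq hp hl).1 h).symm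
  -- the image of `L`
  let A : Subfield Ω := (φ : L →+* Ω).fieldRange
  have hPL : PP F x' ≤ A :=
    PP_le (fun c => ⟨algebraMap F L c, rfl⟩) fun i => ⟨x i, rfl⟩
  have hLA : LL F x' w' ≤ A := LL_le hPL fun j => ⟨w j, rfl⟩
  have hAL : ∀ y : L, φ y ∈ LL F x' w' := by
    let B : IntermediateField F L :=
      { (LL F x' w').comap (φ : L →+* Ω) with
        algebraMap_mem' := fun c => PP_le_LL x' w' (algebraMap_mem_PP x' c) }
    have h1 : IntermediateField.adjoin F (Set.range x ∪ Set.range w) ≤ B := by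
      rw [IntermediateField.adjoin_le_iff]
      rintro _ (⟨i, rfl⟩ | ⟨j, rfl⟩)
      · exact PP_le_LL x' w' (mem_PP x' i)
      · exact mem_LL x' w' j
    intro y
    have h2 : y ∈ (⊤ : IntermediateField F L) := trivial
    rw [← hL] at h2
    exact h1 h2
  have hKL : ∀ y : K, algebraMap K Ω y ∈ LL F x' w' := by
    intro y
    rw [← φ.commutes y]
    exact hAL _
  have hΓ : IsGal (Ω ≃ₐ[K] Ω) (algebraMap K Ω).fieldRange := isGal_algEquiv
  have halg : ∀ ω : Ω, IsAlgebraic (PP F x') ω := by
    intro ω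
    refine alg_trans (PP_le_LL x' w') (fun b hb => alg_LL hp.one_lt (fun j => ?_) hb) ?_
    · rw [hw']
      exact aeval_mem (algebraMap_mem_PP x') (mem_PP x') (g j)
    · refine alg_mono (A := (algebraMap K Ω).fieldRange) ?_ (hΓ.alg ω)
      rintro _ ⟨y, rfl⟩
      exact hKL y
  haveI : Algebra.IsAlgebraic (PP F x') Ω := ⟨halg⟩
  have hPr : (algebraMap (PP F x') Ω).fieldRange = PP F x' := by
    ext y
    constructor
    · rintro ⟨c, rfl⟩
      exact c.2
    · intro hy
      exact ⟨⟨y, hy⟩, rfl⟩
  have hG : IsGal (Ω ≃ₐ[PP F x'] Ω) (PP F x') := by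
    have h := isGal_algEquiv (Ω := Ω) (P := PP F x')
    rwa [hPr] at h
  -- the stabilizer
  let R : Subgroup (Ω ≃ₐ[K] Ω) := φ.fieldRange.fixingSubgroup
  have hR : ∀ γ : Ω ≃ₐ[K] Ω, γ ∈ R ↔ ∀ y, γ (φ y) = φ y := by
    intro γ
    rw [IntermediateField.mem_fixingSubgroup_iff]
    constructor
    · intro h y
      exact h _ ⟨y, rfl⟩
    · rintro h _ ⟨y, rfl⟩
      exact h y
  have hRd := stab_index φ R hR
  have hR0 : R.index ≠ 0 := by
    intro h
    rw [h, zero_dvd_iff] at hRd
    exact Module.finrank_pos.ne' hRd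
  obtain ⟨β, ⟨S, hS, hβS⟩, hβe, hβ⟩ := main_van (M := QZ2 l Ω) hl hl0 (Kb := K) hΓ hx' hG w' g hw'
    (fun χ hχ => isGood_iff p _ (hg χ hχ)) hKL R
    (fun γ hγ => (hR γ).2 fun y => hγ _ (hAL y))
    (fun γ hγ y hy => by
      obtain ⟨z, rfl⟩ := hLA hy
      exact (hR γ).1 hγ z)
    hR0 (Nat.Coprime.coprime_dvd_left hRd hdeg) theCf theCf rfl
    (sm4_of hΓ.finO hf) (fun g _ x y z u => hf.equiv g x y z u) (d4_of hf)
    (fun B hB => LU_of hΓ.finO (hun B hB))
  refine ⟨β, ⟨S, hS.1, fun x x' y y' z z' hx hy hz => hβS _ _ _ _ _ _ hx hy hz⟩,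
    fun g x y z => hβe g (Subgroup.mem_top _) x y z, fun x y z u => ?_⟩
  exact congrFun (congrFun (congrFun (congrFun hβ x) y) z) u

/-- Let `F` be a finite field of characteristic `p`, let `x 0, x 1, x 2` be algebraically independent
over `F` and let `L` be generated over `F` by them and by roots `w j` of the Artin-Schreier equations
`w ^ p - w = g j (x 0, x 1, x 2)`, where every nontrivial combination of the polynomials `g j` with
coefficients in the prime field is good.  Let `K` be a subfield of `L` with `[L : K]` finite and prime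
to the prime number `l ≠ p`.  Then every unramified class in `H^3(K, ℚ_l/ℤ_l(2))` vanishes. -/
theorem result {p l : ℕ} [Fact p.Prime] [Fact l.Prime] (hlp : l ≠ p)
    {F K L : Type} [Field F] [Finite F] [Field K] [Field L] [CharP L p] [Algebra F L] [Algebra K L]
    [FiniteDimensional K L] (hdeg : (Module.finrank K L).Coprime l)
    {x : Fin 3 → L} (hx : AlgebraicIndependent F x)
    {J : Type} [Fintype J] {w : J → L} {g : J → MvPolynomial (Fin 3) F}
    (hw : ∀ j, w j ^ p - w j = MvPolynomial.aeval x (g j))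
    (hL : IntermediateField.adjoin F (Set.range x ∪ Set.range w) = ⊤)
    (hg : ∀ c : J → ZMod p, c ≠ 0 → IsGood p (∑ j, (c j).val • g j))
    (f : (AlgebraicClosure K ≃ₐ[K] AlgebraicClosure K) → (AlgebraicClosure K ≃ₐ[K] AlgebraicClosure K) →
      (AlgebraicClosure K ≃ₐ[K] AlgebraicClosure K) → (AlgebraicClosure K ≃ₐ[K] AlgebraicClosure K) →
      QZ2 l (AlgebraicClosure K))
    (hf : IsCocycle (AlgebraicClosure K) f) (hun : IsUnramified f) :
    IsCoboundary (AlgebraicClosure K) f := by
  have hp : p.Prime := Fact.out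
  rcases isEmpty_or_nonempty J with hJ | hJ
  · refine aux hlp hdeg hx (J := Unit) (w := fun _ => 0) (g := fun _ => 0) (fun _ => ?_) ?_
      (fun c _ => ?_) f hf hun
    · rw [map_zero, zero_pow hp.ne_zero, sub_zero]
    · refine top_le_iff.1 (hL.symm.le.trans (IntermediateField.adjoin.mono _ _ _ ?_))
      rw [Set.range_eq_empty w, Set.union_empty]
      exact Set.subset_union_left
    · refine ⟨0, Or.inl ⟨fun _ => 1, 0, ?_, ?_⟩⟩
      · intro h
        exact one_ne_zero (congrFun h 0)
      · rw [map_zero, zero_pow hp.ne_zero]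
        simp
  · exact aux hlp hdeg hx hw hL hg f hf hun

end Pool.Agent.Results.MP_e9b800_ag.ArtinSchreierThreefolds
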